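import Pool.Agent.Lib.CSid.Final

namespace Pool.Agent.Results.MP_c028f8_co.BoundedRank

/-- additive Sidon set of integers -/
def AddSidon (B : Finset ℤ) : Prop :=
  ∀ a ∈ B, ∀ b ∈ B, ∀ c ∈ B, ∀ d ∈ B, a + b = c + d → (a = c ∧ b = d) ∨ (a = d ∧ b = c)

/-- multiplicative Sidon set of integers -/
def MulSidon (B : Finset ℤ) : Prop :=
  ∀ a ∈ B, ∀ b ∈ B, ∀ c ∈ B, ∀ d ∈ B, a * b = c * d → (a = c ∧ b = d) ∨ (a = d ∧ b = c)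

/-- `A` is contained in the product of the multiplicative group generated by `r` nonzero reals and
the integers of absolute value at most `H`. -/
def InGroup (r : ℕ) (H : ℝ) (A : Finset ℤ) : Prop :=
  ∃ g : Fin r → ℝ, (∀ i, g i ≠ 0) ∧
    ∀ a ∈ A, ∃ (e : Fin r → ℤ) (u : ℤ), |(u : ℝ)| ≤ H ∧ (a : ℝ) = (∏ i, g i ^ e i) * u

/-- `A` is contained in the product of a set `Λ` of rationals and the integers of absolute value at most `H`,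
and `r` valuations distinguish the elements of `Λ`. -/
def InDilates (r : ℕ) (H : ℝ) (A : Finset ℤ) : Prop :=
  ∃ (p : Fin r → ℕ) (Λ : Set ℚ), (∀ j, (p j).Prime) ∧
    (∀ x ∈ Λ, ∀ y ∈ Λ, (∀ j, padicValRat (p j) x = padicValRat (p j) y) → x = y) ∧
    ∀ a ∈ A, ∃ x ∈ Λ, ∃ u : ℤ, |(u : ℝ)| ≤ H ∧ (a : ℚ) = x * u

theorem result (ε : ℝ) (hε : 0 < ε) :
    ∃ c : ℝ, 0 < c ∧ ∀ (r : ℕ) (H : ℝ) (A : Finset ℤ), 1 ≤ H →
      (InGroup r H A ∨ InDilates r H A) →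
      ∃ B ⊆ A, (AddSidon B ∨ MulSidon B) ∧
        c * H ^ (-ε) * max
          ((A.card : ℝ) ^ (3 / 5 : ℝ) /
            (Real.logb 2 (2 * A.card) ^ (2 ^ (r + 1) + 1) * (126 * Real.logb 2 (2 * H)) ^ (2 * r)))
          ((A.card : ℝ) ^ (5 / 9 : ℝ) /
            (Real.logb 2 (2 * A.card) * (26 * Real.logb 2 (2 * H)) ^ (2 * r))) ≤ B.card := by
  obtain ⟨c, hc, h⟩ := Lib.CSid.final ε hε
  refine ⟨c, hc, ?_⟩
  have habs : ∀ (H : ℝ) (u : ℤ), |(u : ℝ)| ≤ H → u.natAbs ≤ ⌊H⌋₊ := by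
    intro H u hu
    apply Nat.le_floor
    rw [Nat.cast_natAbs]
    push_cast
    exact hu
  intro r H A hH hA
  obtain ⟨P, hP, hPA⟩ : ∃ P : ℤ → Prop, Lib.CSid.GoodP r ⌊H⌋₊ P ∧ ∀ a ∈ A, P a := by
    rcases hA with ⟨g, hg, hA⟩ | ⟨p, Λ, hp, hΛ, hA⟩
    · refine ⟨_, Lib.CSid.goodP_group g hg ⌊H⌋₊, fun a ha => ?_⟩
      obtain ⟨e, u, hu, he⟩ := hA a ha
      exact ⟨e, u, habs H u hu, he⟩
    · refine ⟨_, Lib.CSid.goodP_dil p hp Λ hΛ ⌊H⌋₊, fun a ha => ?_⟩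
      obtain ⟨x, hx, u, hu, he⟩ := hA a ha
      exact ⟨x, hx, u, habs H u hu, he⟩
  obtain ⟨⟨B1, h1, h1S, h1c⟩, ⟨B2, h2, h2S, h2c⟩⟩ := h r H hH P hP A hPA
  rw [mul_div_assoc] at h1c h2c
  rcases le_total ((A.card : ℝ) ^ (3 / 5 : ℝ) /
      (Real.logb 2 (2 * A.card) ^ (2 ^ (r + 1) + 1) * (126 * Real.logb 2 (2 * H)) ^ (2 * r)))
      ((A.card : ℝ) ^ (5 / 9 : ℝ) /
        (Real.logb 2 (2 * A.card) * (26 * Real.logb 2 (2 * H)) ^ (2 * r))) with hle | hle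
  · rw [max_eq_right hle]
    exact ⟨B2, h2, h2S, h2c⟩
  · rw [max_eq_left hle]
    exact ⟨B1, h1, h1S, h1c⟩

end Pool.Agent.Results.MP_c028f8_co.BoundedRank
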