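import Pool.Agent.Lib.SAP.Main
import Pool.Agent.Lib.SGP.MainG

/-!
# Sidon subsets of sets of integers covered by few progressions

MP_c028f8_co.  Let `A` be a set of `n` integers covered by `m` progressions of one shape.
If they are translates of an arithmetic progression, then `A` has a large multiplicative Sidon subset, also when `m`
is about `n ^ (1/2)`; if they are cosets of a multiplicative group of rank `r`, then `A` has a large additive Sidon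
subset, also when `m` is about `n ^ (1/2 + 1/(6r+4))`.
-/

set_option autoImplicit false

namespace Pool.Agent.Results.MP_c028f8_co.ProgressionCovers

/-- additive Sidon set of integers -/
def AddSidon (B : Finset ℤ) : Prop :=
  ∀ a ∈ B, ∀ b ∈ B, ∀ c ∈ B, ∀ d ∈ B, a + b = c + d → (a = c ∧ b = d) ∨ (a = d ∧ b = c)

/-- multiplicative Sidon set of integers -/
def MulSidon (B : Finset ℤ) : Prop :=
  ∀ a ∈ B, ∀ b ∈ B, ∀ c ∈ B, ∀ d ∈ B, a * b = c * d → (a = c ∧ b = d) ∨ (a = d ∧ b = c)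

/-- `A` is covered by `m` translates of an arithmetic progression with `H` terms: by the sets
`x + {0, d, 2d, ..., (H-1)d}`, `x ∈ X`, with `|X| = m`. -/
def InTranslates (m H : ℕ) (A : Finset ℤ) : Prop :=
  ∃ (X : Finset ℤ) (d : ℤ), X.card = m ∧ 0 < d ∧ ∀ a ∈ A, ∃ x ∈ X, ∃ u : ℕ, u < H ∧ a = x + d * u

/-- `A` is covered by `m` cosets of a multiplicative group generated by `r` nonzero reals: by the sets
`x * {∏ i, g i ^ e i : e ∈ ℤ ^ r}`, `x ∈ X`, with `|X| = m`. -/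
def InCosets (m r : ℕ) (A : Finset ℤ) : Prop :=
  ∃ (X : Finset ℝ) (g : Fin r → ℝ), X.card = m ∧ (∀ i, g i ≠ 0) ∧
    ∀ a ∈ A, ∃ x ∈ X, ∃ e : Fin r → ℤ, (a : ℝ) = x * ∏ i, g i ^ e i

theorem result (ε : ℝ) (hε : 0 < ε) (r : ℕ) :
    ∃ c : ℝ, 0 < c ∧ ∀ (m : ℕ) (A : Finset ℤ),
      (∀ H : ℕ, InTranslates m H A → ∃ B ⊆ A, MulSidon B ∧
        c * (H : ℝ) ^ (-ε) * max
          ((A.card : ℝ) ^ (8 / 9 : ℝ) * ((m : ℝ) ^ 2 * H) ^ (-(2 / 9) : ℝ) *
            (min 1 ((A.card : ℝ) / (m : ℝ) ^ 2)) ^ (4 / 9 : ℝ))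
          ((A.card : ℝ) ^ (2 / 3 : ℝ) * (m : ℝ) ^ (-(1 / 3) : ℝ) *
            (min 1 ((A.card : ℝ) / (m : ℝ) ^ 2)) ^ (1 / 3 : ℝ)) ≤ B.card) ∧
      (InCosets m r A → ∃ B ⊆ A, AddSidon B ∧
        c * A.card / ((A.card : ℝ) + (m : ℝ) ^ (3 - 1 / ((r : ℝ) + 1))) ^ (1 / 3 : ℝ) ≤ B.card) ∧
      (InCosets m 1 A → ∃ B ⊆ A, AddSidon B ∧
        c * A.card / ((A.card : ℝ) + (m : ℝ) ^ 2 * Real.logb 2 (2 * m)) ^ (1 / 3 : ℝ) ≤ B.card) := by
  obtain ⟨c1, hc1, h1⟩ := Lib.SAP.main ε hε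
  obtain ⟨c2, hc2, h2⟩ := Lib.SGP.mainG r
  obtain ⟨c3, hc3, h3⟩ := Lib.SGP.mainG1
  have hlog : ∀ m : ℕ, 0 ≤ (m : ℝ) ^ 2 * Real.logb 2 (2 * m) := by
    intro m
    rcases Nat.eq_zero_or_pos m with rfl | hm
    · simp
    · have : (1 : ℝ) ≤ m := by exact_mod_cast hm
      exact mul_nonneg (by positivity) (Real.logb_nonneg (by norm_num) (by linarith))
  refine ⟨min c1 (min c2 c3), lt_min hc1 (lt_min hc2 hc3), fun m A => ⟨?_, ?_, ?_⟩⟩
  · rintro H ⟨X, d, rfl, hd, hA⟩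
    obtain ⟨B, hB, hS, hb⟩ := h1 A X d H hd hA
    refine ⟨B, hB, hS, le_trans ?_ hb⟩
    have hG : 0 ≤ Lib.SAP.G (A.card : ℝ) (X.card : ℝ) (H : ℝ) := by
      refine le_max_of_le_left ?_
      have : 0 ≤ min 1 ((A.card : ℝ) / (X.card : ℝ) ^ 2) := le_min (by norm_num) (by positivity)
      positivity
    have hH : 0 ≤ (H : ℝ) ^ (-ε) := by positivity
    exact mul_le_mul_of_nonneg_right (mul_le_mul_of_nonneg_right (min_le_left _ _) hH) hG
  · rintro ⟨X, g, rfl, hg, hA⟩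
    obtain ⟨B, hB, hS, hb⟩ := h2 g hg A X hA
    refine ⟨B, hB, hS, le_trans ?_ hb⟩
    have : min c1 (min c2 c3) ≤ c2 := (min_le_right _ _).trans (min_le_left _ _)
    gcongr
  · rintro ⟨X, g, rfl, hg, hA⟩
    obtain ⟨B, hB, hS, hb⟩ := h3 (g 0) (hg 0) A X fun a ha => by
      obtain ⟨x, hx, e, he⟩ := hA a ha
      exact ⟨x, hx, e 0, by rw [he, Fin.prod_univ_one]⟩
    refine ⟨B, hB, hS, le_trans ?_ hb⟩
    have : min c1 (min c2 c3) ≤ c3 := (min_le_right _ _).trans (min_le_right _ _)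
    have h0 : 0 ≤ (A.card : ℝ) + (X.card : ℝ) ^ 2 * Real.logb 2 (2 * X.card) :=
      add_nonneg (by positivity) (hlog _)
    have h4 : 0 ≤ ((A.card : ℝ) + (X.card : ℝ) ^ 2 * Real.logb 2 (2 * X.card)) ^ (1 / 3 : ℝ) :=
      Real.rpow_nonneg h0 _
    gcongr

end Pool.Agent.Results.MP_c028f8_co.ProgressionCovers
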