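import Pool.Agent.Lib.SdG.Reg

/-!
# Additive 3-Sidon or multiplicative 2-Sidon subsets above the square root

MP_c028f8_co. Paper proof: /team-store/c028f8_g32.md; the parts are in `Pool/Agent/Lib/SdG`.
-/

set_option autoImplicit false

namespace Pool.Agent.Results.MP_c028f8_co.Sidon32

open Finset

/-- additive `g`-Sidon set: every `s` has at most `g` representations `s = a + b` with `a ≤ b` in `B` -/
def AddSidon {R : Type*} [Ring R] [LinearOrder R] (g : ℕ) (B : Finset R) : Prop :=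
  ∀ s : R, ((B ×ˢ B).filter fun x => x.1 ≤ x.2 ∧ x.1 + x.2 = s).card ≤ g

/-- multiplicative `g`-Sidon set: every `p` has at most `g` representations `p = a * b` with
`a ≤ b` in `B` -/
def MulSidon {R : Type*} [Ring R] [LinearOrder R] (g : ℕ) (B : Finset R) : Prop :=
  ∀ p : R, ((B ×ˢ B).filter fun x => x.1 ≤ x.2 ∧ x.1 * x.2 = p).card ≤ g

theorem result : ∃ c : ℝ, 0 < c ∧
    (∀ A : Finset ℝ, ∃ B ⊆ A, (AddSidon 3 B ∨ MulSidon 2 B) ∧
      c * (A.card : ℝ) ^ ((1 : ℝ) / 2 + 1 / 750) ≤ B.card) ∧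
    (∀ A : Finset ℤ, ∃ B ⊆ A, (AddSidon 3 B ∨ MulSidon 2 B) ∧
      c * (A.card : ℝ) ^ ((1 : ℝ) / 2 + 1 / 750) ≤ B.card) := by
  obtain ⟨c, hc, h⟩ := SdG.main
  have h1 : ∀ A : Finset ℝ, ∃ B ⊆ A, (AddSidon 3 B ∨ MulSidon 2 B) ∧
      c * (A.card : ℝ) ^ ((1 : ℝ) / 2 + 1 / 750) ≤ B.card := by
    intro A
    obtain ⟨B, hB, hS, hcard⟩ := h A
    refine ⟨B, hB, ?_, hcard⟩
    rcases hS with hS | hS
    · exact Or.inl fun s => hS s
    · exact Or.inr fun s => hS s
  refine ⟨c, hc, h1, fun A => ?_⟩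
  have hinj : Function.Injective (fun x : ℤ => (x : ℝ)) := Int.cast_injective
  obtain ⟨B', hB', hS, hcard⟩ := h1 (A.image fun x : ℤ => (x : ℝ))
  rw [card_image_of_injective _ hinj] at hcard
  set B := A.filter fun x : ℤ => (x : ℝ) ∈ B' with hB
  have himg : B.image (fun x : ℤ => (x : ℝ)) = B' := by
    ext y
    rw [mem_image]
    constructor
    · rintro ⟨x, hx, rfl⟩
      exact (mem_filter.1 hx).2
    · intro hy
      obtain ⟨x, hx, rfl⟩ := mem_image.1 (hB' hy)
      exact ⟨x, mem_filter.2 ⟨hx, hy⟩, rfl⟩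
  refine ⟨B, filter_subset _ _, ?_, ?_⟩
  · rcases hS with hS | hS
    · refine Or.inl fun s => le_trans ?_ (hS (s : ℝ))
      refine card_le_card_of_injOn (fun x => ((x.1 : ℝ), (x.2 : ℝ))) ?_ ?_
      · intro x hx
        rw [mem_coe, mem_filter, mem_product] at hx
        rw [mem_coe, mem_filter, mem_product]
        refine ⟨⟨(mem_filter.1 hx.1.1).2, (mem_filter.1 hx.1.2).2⟩, ?_, ?_⟩
        · show (x.1 : ℝ) ≤ (x.2 : ℝ)
          exact_mod_cast hx.2.1
        · show (x.1 : ℝ) + (x.2 : ℝ) = (s : ℝ)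
          exact_mod_cast hx.2.2
      · intro x _ y _ hxy
        have h2 := Prod.mk.inj hxy
        exact Prod.ext (by exact_mod_cast h2.1) (by exact_mod_cast h2.2)
    · refine Or.inr fun s => le_trans ?_ (hS (s : ℝ))
      refine card_le_card_of_injOn (fun x => ((x.1 : ℝ), (x.2 : ℝ))) ?_ ?_
      · intro x hx
        rw [mem_coe, mem_filter, mem_product] at hx
        rw [mem_coe, mem_filter, mem_product]
        refine ⟨⟨(mem_filter.1 hx.1.1).2, (mem_filter.1 hx.1.2).2⟩, ?_, ?_⟩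
        · show (x.1 : ℝ) ≤ (x.2 : ℝ)
          exact_mod_cast hx.2.1
        · show (x.1 : ℝ) * (x.2 : ℝ) = (s : ℝ)
          exact_mod_cast hx.2.2
      · intro x _ y _ hxy
        have h2 := Prod.mk.inj hxy
        exact Prod.ext (by exact_mod_cast h2.1) (by exact_mod_cast h2.2)
  · rw [← himg, card_image_of_injective _ hinj] at hcard
    exact hcard

end Pool.Agent.Results.MP_c028f8_co.Sidon32
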