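import Mathlib

namespace Pool.Agent.Results.MP_c028f8_co.ThreeFifths

/-- additive Sidon set of integers -/
def AddSidon (B : Finset ℤ) : Prop :=
  ∀ a ∈ B, ∀ b ∈ B, ∀ c ∈ B, ∀ d ∈ B, a + b = c + d → (a = c ∧ b = d) ∨ (a = d ∧ b = c)

/-- multiplicative Sidon set of integers -/
def MulSidon (B : Finset ℤ) : Prop :=
  ∀ a ∈ B, ∀ b ∈ B, ∀ c ∈ B, ∀ d ∈ B, a * b = c * d → (a = c ∧ b = d) ∨ (a = d ∧ b = c)

private def W (z : ℕ) : Finset ℕ := (Finset.range (z + 1)).filter (fun p => p.Prime ∧ z < p ^ 2)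

private def U (z : ℕ) : Finset ℕ := (Finset.range (z ^ 3 + 1)).filter (fun u => u % 2 = 1)

private def I (z : ℕ) : Finset ℕ := (W z ×ˢ U z).image (fun x => x.1 * x.2)

private def Az (z : ℕ) : Finset ℤ :=
  (Finset.range z ×ˢ I z).image (fun x => ((2 ^ x.1 * x.2 : ℕ) : ℤ))

private lemma mem_W {z p : ℕ} : p ∈ W z ↔ p ≤ z ∧ p.Prime ∧ z < p ^ 2 := by
  rw [W, Finset.mem_filter, Finset.mem_range, Nat.lt_succ_iff]

private lemma mem_U {z u : ℕ} : u ∈ U z ↔ u ≤ z ^ 3 ∧ u % 2 = 1 := by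
  rw [U, Finset.mem_filter, Finset.mem_range, Nat.lt_succ_iff]

private lemma mem_I {z m : ℕ} : m ∈ I z ↔ ∃ p ∈ W z, ∃ u ∈ U z, p * u = m := by
  rw [I, Finset.mem_image]
  constructor
  · rintro ⟨⟨p, u⟩, h, rfl⟩
    rw [Finset.mem_product] at h
    exact ⟨p, h.1, u, h.2, rfl⟩
  · rintro ⟨p, hp, u, hu, rfl⟩
    exact ⟨(p, u), Finset.mem_product.2 ⟨hp, hu⟩, rfl⟩

private lemma mem_Az {z : ℕ} {x : ℤ} :
    x ∈ Az z ↔ ∃ j < z, ∃ m ∈ I z, ((2 ^ j * m : ℕ) : ℤ) = x := by
  rw [Az, Finset.mem_image]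
  constructor
  · rintro ⟨⟨j, m⟩, h, rfl⟩
    rw [Finset.mem_product, Finset.mem_range] at h
    exact ⟨j, h.1, m, h.2, rfl⟩
  · rintro ⟨j, hj, m, hm, rfl⟩
    exact ⟨(j, m), Finset.mem_product.2 ⟨Finset.mem_range.2 hj, hm⟩, rfl⟩

private lemma W_odd {z p : ℕ} (hz : 4 ≤ z) (hp : p ∈ W z) : p % 2 = 1 := by
  obtain ⟨_, h2, h3⟩ := mem_W.1 hp
  rcases h2.eq_two_or_odd with h | h
  · subst h; omega
  · exact h

private lemma I_le {z m : ℕ} (hm : m ∈ I z) : m ≤ z ^ 4 := by
  obtain ⟨p, hp, u, hu, rfl⟩ := mem_I.1 hm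
  have h1 := (mem_W.1 hp).1
  have h2 := (mem_U.1 hu).1
  calc p * u ≤ z * z ^ 3 := Nat.mul_le_mul h1 h2
    _ = z ^ 4 := by ring

private lemma I_odd {z m : ℕ} (hz : 4 ≤ z) (hm : m ∈ I z) : m % 2 = 1 := by
  obtain ⟨p, hp, u, hu, rfl⟩ := mem_I.1 hm
  have h1 := W_odd hz hp
  have h2 := (mem_U.1 hu).2
  rw [Nat.mul_mod, h1, h2]

private lemma pow_two_mul_inj {j j' m m' : ℕ} (hm : m % 2 = 1) (hm' : m' % 2 = 1)
    (h : 2 ^ j * m = 2 ^ j' * m') : j = j' ∧ m = m' := by
  have key : ∀ j j' m m' : ℕ, m % 2 = 1 → 2 ^ j * m = 2 ^ j' * m' → j' ≤ j := by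
    intro j j' m m' hm h
    by_contra hcon
    push Not at hcon
    obtain ⟨d, rfl⟩ : ∃ d, j' = j + (d + 1) := ⟨j' - j - 1, by omega⟩
    rw [pow_add, mul_assoc] at h
    have h1 : m = 2 ^ (d + 1) * m' := Nat.eq_of_mul_eq_mul_left (by positivity) h
    rw [pow_succ, mul_comm (2 ^ d) 2, mul_assoc] at h1
    omega
  have h1 := key j j' m m' hm h
  have h2 := key j' j m' m hm' h.symm
  have h3 : j = j' := le_antisymm h2 h1
  subst h3
  exact ⟨rfl, Nat.eq_of_mul_eq_mul_left (by positivity) h⟩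

private lemma card_Az {z : ℕ} (hz : 4 ≤ z) : (Az z).card = z * (I z).card := by
  rw [Az, Finset.card_image_of_injOn, Finset.card_product, Finset.card_range]
  rintro ⟨j, m⟩ h ⟨j', m'⟩ h' heq
  have h := Finset.mem_product.1 (Finset.mem_coe.1 h)
  have h' := Finset.mem_product.1 (Finset.mem_coe.1 h')
  simp only at heq h h'
  have heq' : 2 ^ j * m = 2 ^ j' * m' := by exact_mod_cast heq
  obtain ⟨h1, h2⟩ := pow_two_mul_inj (I_odd hz h.2) (I_odd hz h'.2) heq'
  rw [h1, h2]

/-- few primes of `W z` divide a number `≤ z^4` -/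
private lemma few_primes {z m : ℕ} (hm0 : 0 < m) (hm : m ≤ z ^ 4) (T : Finset ℕ)
    (hT : ∀ p ∈ T, p ∈ W z ∧ p ∣ m) : T.card ≤ 7 := by
  by_contra hcon
  push Not at hcon
  obtain ⟨T', hT', hTc⟩ := Finset.exists_subset_card_eq (s := T) (n := 8) (by omega)
  have hdvd : ∏ p ∈ T', p ∣ m := by
    apply Finset.prod_primes_dvd
    · intro p hp
      exact (mem_W.1 (hT p (hT' hp)).1).2.1.prime
    · intro p hp
      exact (hT p (hT' hp)).2
  have hle : ∏ p ∈ T', p ≤ z ^ 4 := (Nat.le_of_dvd hm0 hdvd).trans hm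
  have hlt : z ^ 8 < (∏ p ∈ T', p) ^ 2 := by
    rw [← Finset.prod_pow]
    calc z ^ 8 = ∏ p ∈ T', z := by rw [Finset.prod_const, hTc]
      _ < ∏ p ∈ T', p ^ 2 := by
          apply Finset.prod_lt_prod_of_nonempty
          · intro p hp
            have hz0 : 0 < z := by
              rcases Nat.eq_zero_or_pos z with h | h
              · subst h; simp at hm; omega
              · exact h
            exact hz0
          · intro p hp
            exact (mem_W.1 (hT p (hT' hp)).1).2.2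
          · rw [← Finset.card_pos, hTc]; norm_num
  have : (∏ p ∈ T', p) ^ 2 ≤ (z ^ 4) ^ 2 := Nat.pow_le_pow_left hle 2
  have h8 : (z ^ 4) ^ 2 = z ^ 8 := by ring
  omega

private lemma card_I (z : ℕ) : (W z).card * (U z).card ≤ 7 * (I z).card := by
  rw [← Finset.card_product]
  have h := Finset.card_le_mul_card_image (f := fun x : ℕ × ℕ => x.1 * x.2) (W z ×ˢ U z) 7 ?_
  · exact h
  · intro m hm
    have hm' : m ∈ I z := hm
    have hmle := I_le hm'
    obtain ⟨p0, hp0, u0, hu0, hpu⟩ := mem_I.1 hm'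
    have hm0 : 0 < m := by
      rw [← hpu]
      apply Nat.mul_pos (mem_W.1 hp0).2.1.pos
      have := (mem_U.1 hu0).2
      omega
    have hinj : ((W z ×ˢ U z).filter (fun x => x.1 * x.2 = m)).card ≤
        (((W z ×ˢ U z).filter (fun x => x.1 * x.2 = m)).image Prod.fst).card := by
      rw [Finset.card_image_of_injOn]
      rintro ⟨p, u⟩ h ⟨p', u'⟩ h' heq
      have h := Finset.mem_filter.1 (Finset.mem_coe.1 h)
      have h' := Finset.mem_filter.1 (Finset.mem_coe.1 h')
      simp only at heq h h'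
      subst heq
      have hp := (mem_W.1 (Finset.mem_product.1 h.1).1).2.1.pos
      have : u = u' := Nat.eq_of_mul_eq_mul_left hp (h.2.trans h'.2.symm)
      rw [this]
    refine hinj.trans (few_primes hm0 hmle _ ?_)
    intro p hp
    rw [Finset.mem_image] at hp
    obtain ⟨⟨p', u'⟩, h, rfl⟩ := hp
    have h := Finset.mem_filter.1 h
    refine ⟨(Finset.mem_product.1 h.1).1, ?_⟩
    exact ⟨u', h.2.symm⟩

/-- an additive Sidon set of naturals up to `N` has at most about `√(2N)` elements -/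
private lemma sidon_nat {N : ℕ} (S : Finset ℕ) (hS : ∀ m ∈ S, m ≤ N)
    (hinj : ∀ a ∈ S, ∀ b ∈ S, ∀ c ∈ S, ∀ d ∈ S, a + b = c + d → (a = c ∧ b = d) ∨ (a = d ∧ b = c)) :
    S.card * (S.card - 1) ≤ 2 * N := by
  have h1 : S.offDiag.card ≤ ((Finset.Icc (-(N : ℤ)) N).erase 0).card := by
    apply Finset.card_le_card_of_injOn (fun x => (x.1 : ℤ) - x.2)
    · rintro ⟨a, b⟩ hab
      have hab := Finset.mem_offDiag.1 (Finset.mem_coe.1 hab)
      simp only at hab
      have ha := hS a hab.1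
      have hb := hS b hab.2.1
      rw [Finset.mem_coe, Finset.mem_erase, Finset.mem_Icc]
      simp only
      refine ⟨?_, ?_, ?_⟩
      · intro h
        apply hab.2.2
        omega
      · omega
      · omega
    · rintro ⟨a, b⟩ hab ⟨c, d⟩ hcd heq
      have hab := Finset.mem_offDiag.1 (Finset.mem_coe.1 hab)
      have hcd := Finset.mem_offDiag.1 (Finset.mem_coe.1 hcd)
      simp only at heq hab hcd
      have heq' : a + d = c + b := by omega
      rcases hinj a hab.1 d hcd.2.1 c hcd.1 b hab.2.1 heq' with h | h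
      · rw [h.1, h.2]
      · exact absurd h.1 hab.2.2
  rw [Finset.offDiag_card, Finset.card_erase_of_mem (by rw [Finset.mem_Icc]; omega),
    Int.card_Icc] at h1
  have h2 : ((N : ℤ) + 1 - -(N : ℤ)).toNat - 1 = 2 * N := by omega
  rw [h2] at h1
  rw [Nat.mul_sub, mul_one]
  exact h1

/-- additive Sidon subsets of `Az z` are small -/
private lemma add_bound {z : ℕ} (hz : 4 ≤ z) {B : Finset ℤ} (hB : B ⊆ Az z) (hS : AddSidon B) :
    B.card ≤ 3 * z ^ 3 := by
  classical
  -- split according to the power of two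
  set S : ℕ → Finset ℕ := fun j => (I z).filter (fun m => ((2 ^ j * m : ℕ) : ℤ) ∈ B) with hSdef
  have hsub : B ⊆ (Finset.range z).biUnion
      (fun j => (S j).image (fun m => ((2 ^ j * m : ℕ) : ℤ))) := by
    intro x hx
    obtain ⟨j, hj, m, hm, hxm⟩ := mem_Az.1 (hB hx)
    rw [Finset.mem_biUnion]
    refine ⟨j, Finset.mem_range.2 hj, Finset.mem_image.2 ⟨m, ?_, hxm⟩⟩
    exact Finset.mem_filter.2 ⟨hm, by rw [hxm]; exact hx⟩
  have hSj : ∀ j ∈ Finset.range z,
      ((S j).image (fun m => ((2 ^ j * m : ℕ) : ℤ))).card ≤ 3 * z ^ 2 := by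
    intro j _
    refine Finset.card_image_le.trans ?_
    have h1 : (S j).card * ((S j).card - 1) ≤ 2 * z ^ 4 := by
      apply sidon_nat
      · intro m hm
        exact I_le (Finset.mem_filter.1 hm).1
      · intro a ha b hb c hc d hd habcd
        have ha := (Finset.mem_filter.1 ha).2
        have hb := (Finset.mem_filter.1 hb).2
        have hc := (Finset.mem_filter.1 hc).2
        have hd := (Finset.mem_filter.1 hd).2
        have h2 : ((2 ^ j * a : ℕ) : ℤ) + ((2 ^ j * b : ℕ) : ℤ)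
            = ((2 ^ j * c : ℕ) : ℤ) + ((2 ^ j * d : ℕ) : ℤ) := by
          have : 2 ^ j * a + 2 ^ j * b = 2 ^ j * c + 2 ^ j * d := by
            rw [← mul_add, habcd, mul_add]
          exact_mod_cast this
        have hpos : 0 < 2 ^ j := by positivity
        rcases hS _ ha _ hb _ hc _ hd h2 with h | h
        · left
          have h3 : 2 ^ j * a = 2 ^ j * c := by exact_mod_cast h.1
          have h4 : 2 ^ j * b = 2 ^ j * d := by exact_mod_cast h.2
          exact ⟨Nat.eq_of_mul_eq_mul_left hpos h3, Nat.eq_of_mul_eq_mul_left hpos h4⟩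
        · right
          have h3 : 2 ^ j * a = 2 ^ j * d := by exact_mod_cast h.1
          have h4 : 2 ^ j * b = 2 ^ j * c := by exact_mod_cast h.2
          exact ⟨Nat.eq_of_mul_eq_mul_left hpos h3, Nat.eq_of_mul_eq_mul_left hpos h4⟩
    by_contra hcon
    push Not at hcon
    have h2 : 3 * z ^ 2 * (3 * z ^ 2) ≤ (S j).card * ((S j).card - 1) :=
      Nat.mul_le_mul (by omega) (by omega)
    have h3 : 3 * z ^ 2 * (3 * z ^ 2) = 9 * z ^ 4 := by ring
    have h4 : 0 < z ^ 4 := by positivity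
    omega
  calc B.card ≤ _ := Finset.card_le_card hsub
    _ ≤ (Finset.range z).card * (3 * z ^ 2) := Finset.card_biUnion_le_card_mul _ _ _ hSj
    _ = 3 * z ^ 3 := by rw [Finset.card_range]; ring

private lemma card_W_le (z : ℕ) : (W z).card ≤ z := by
  have : W z ⊆ Finset.Icc 1 z := by
    intro p hp
    rw [Finset.mem_Icc]
    exact ⟨(mem_W.1 hp).2.1.pos, (mem_W.1 hp).1⟩
  simpa using Finset.card_le_card this

private lemma card_U_le (z : ℕ) : (U z).card ≤ z ^ 3 := by
  have : U z ⊆ Finset.Icc 1 (z ^ 3) := by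
    intro u hu
    rw [Finset.mem_Icc]
    have := mem_U.1 hu
    omega
  simpa using Finset.card_le_card this

/-- multiplicative Sidon subsets of `Az z` are small -/
private lemma mul_bound {z : ℕ} {B : Finset ℤ} (hB : B ⊆ Az z) (hS : MulSidon B) :
    B.card ≤ 3 * z ^ 3 := by
  classical
  have hex : ∀ x : ℤ, ∃ t : ℕ × ℕ × ℕ, x ∈ B →
      t.1 < z ∧ t.2.1 ∈ W z ∧ t.2.2 ∈ U z ∧ ((2 ^ t.1 * (t.2.1 * t.2.2) : ℕ) : ℤ) = x := by
    intro x
    by_cases hx : x ∈ B
    · obtain ⟨j, hj, m, hm, hxm⟩ := mem_Az.1 (hB hx)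
      obtain ⟨p, hp, u, hu, rfl⟩ := mem_I.1 hm
      exact ⟨(j, p, u), fun _ => ⟨hj, hp, hu, hxm⟩⟩
    · exact ⟨(0, 0, 0), fun h => absurd h hx⟩
  choose t ht using hex
  -- pairs with the same `u`
  set P := B.offDiag.filter (fun x => (t x.1).2.2 = (t x.2).2.2) with hP
  have hPcard : P.card ≤ (2 * z) * (z * z) := by
    have h1 : P.card ≤ (Finset.Ioo (-(z : ℤ)) z ×ˢ (W z ×ˢ W z)).card := by
      apply Finset.card_le_card_of_injOn
        (fun x => (((t x.1).1 : ℤ) - (t x.2).1, (t x.1).2.1, (t x.2).2.1))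
      · rintro ⟨x, y⟩ hxy
        have hxy := Finset.mem_filter.1 (Finset.mem_coe.1 hxy)
        have hxy1 := Finset.mem_offDiag.1 hxy.1
        simp only at hxy1
        obtain ⟨hx1, hx2, _, _⟩ := ht x hxy1.1
        obtain ⟨hy1, hy2, _, _⟩ := ht y hxy1.2.1
        rw [Finset.mem_coe, Finset.mem_product, Finset.mem_product, Finset.mem_Ioo]
        simp only
        exact ⟨⟨by omega, by omega⟩, hx2, hy2⟩
      · rintro ⟨x, y⟩ hxy ⟨x', y'⟩ hxy' heq
        have hxy := Finset.mem_filter.1 (Finset.mem_coe.1 hxy)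
        have hxy1 := Finset.mem_offDiag.1 hxy.1
        have hxy' := Finset.mem_filter.1 (Finset.mem_coe.1 hxy')
        have hxy1' := Finset.mem_offDiag.1 hxy'.1
        simp only [Prod.mk.injEq] at hxy hxy1 hxy' hxy1' heq
        obtain ⟨e1, e2, e3⟩ := heq
        obtain ⟨_, _, _, hx⟩ := ht x hxy1.1
        obtain ⟨_, _, _, hy⟩ := ht y hxy1.2.1
        obtain ⟨_, _, _, hx'⟩ := ht x' hxy1'.1
        obtain ⟨_, _, _, hy'⟩ := ht y' hxy1'.2.1
        have hj : (t x).1 + (t y').1 = (t x').1 + (t y).1 := by omega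
        have hprod : x * y' = x' * y := by
          rw [← hx, ← hy, ← hx', ← hy']
          have : 2 ^ (t x).1 * ((t x).2.1 * (t x).2.2) * (2 ^ (t y').1 * ((t y').2.1 * (t y').2.2))
              = 2 ^ (t x').1 * ((t x').2.1 * (t x').2.2) *
                (2 ^ (t y).1 * ((t y).2.1 * (t y).2.2)) := by
            rw [e2, e3, hxy.2, hxy'.2]
            have h2 : 2 ^ (t x).1 * 2 ^ (t y').1 = 2 ^ (t x').1 * 2 ^ (t y).1 := by
              rw [← pow_add, ← pow_add, hj]
            calc _ = (2 ^ (t x).1 * 2 ^ (t y').1) *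
                  ((t x').2.1 * (t y).2.2 * ((t y').2.1 * (t y').2.2)) := by ring
              _ = _ := by rw [h2]; ring
          exact_mod_cast this
        rcases hS x hxy1.1 y' hxy1'.2.1 x' hxy1'.1 y hxy1.2.1 hprod with h | h
        · rw [h.1, h.2]
        · exact absurd h.1 hxy1.2.2
    refine h1.trans ?_
    rw [Finset.card_product, Finset.card_product, Int.card_Ioo]
    have hW := card_W_le z
    have h2 : ((z : ℤ) - -(z : ℤ) - 1).toNat ≤ 2 * z := by omega
    exact Nat.mul_le_mul h2 (Nat.mul_le_mul hW hW)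
  -- representatives
  have hrep : ∀ u : ℕ, ∃ r : ℤ, (∃ x ∈ B, (t x).2.2 = u) → r ∈ B ∧ (t r).2.2 = u := by
    intro u
    by_cases h : ∃ x ∈ B, (t x).2.2 = u
    · obtain ⟨x, hx, hxu⟩ := h
      exact ⟨x, fun _ => ⟨hx, hxu⟩⟩
    · exact ⟨0, fun h' => absurd h' h⟩
  choose r hr using hrep
  have hsplit : B ⊆ (U z).image r ∪ P.image Prod.fst := by
    intro x hx
    obtain ⟨_, _, hxU, _⟩ := ht x hx
    obtain ⟨hr1, hr2⟩ := hr (t x).2.2 ⟨x, hx, rfl⟩
    rw [Finset.mem_union]
    by_cases h : r (t x).2.2 = x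
    · left
      exact Finset.mem_image.2 ⟨(t x).2.2, hxU, h⟩
    · right
      refine Finset.mem_image.2 ⟨(x, r (t x).2.2), ?_, rfl⟩
      rw [hP, Finset.mem_filter, Finset.mem_offDiag]
      exact ⟨⟨hx, hr1, fun h' => h h'.symm⟩, hr2.symm⟩
  have h1 := Finset.card_le_card hsplit
  have h2 := Finset.card_union_le ((U z).image r) (P.image Prod.fst)
  have h3 : ((U z).image r).card ≤ (U z).card := Finset.card_image_le
  have h4 : (P.image Prod.fst).card ≤ P.card := Finset.card_image_le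
  have h5 := card_U_le z
  have h6 : (2 * z) * (z * z) = 2 * z ^ 3 := by ring
  omega

private lemma card_U_ge (z : ℕ) : z ^ 3 ≤ 2 * (U z).card := by
  have h : (Finset.range ((z ^ 3 + 1) / 2)).card ≤ (U z).card := by
    apply Finset.card_le_card_of_injOn (fun i => 2 * i + 1)
    · intro i hi
      have hi := Finset.mem_range.1 (Finset.mem_coe.1 hi)
      rw [Finset.mem_coe, mem_U]
      simp only
      omega
    · intro a _ b _ hab
      simpa using hab
  rw [Finset.card_range] at h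
  omega

private lemma card_W_ge (z : ℕ) : Nat.primeCounting z ≤ (W z).card + Nat.sqrt z := by
  have h1 : (Nat.primesLE z) ⊆ W z ∪ Finset.Icc 1 (Nat.sqrt z) := by
    intro p hp
    have hp' := Nat.mem_primesLE.1 hp
    rw [Finset.mem_union]
    by_cases h : z < p ^ 2
    · left; exact mem_W.2 ⟨hp'.1, hp'.2, h⟩
    · right
      rw [Finset.mem_Icc]
      refine ⟨hp'.2.pos, ?_⟩
      rw [Nat.le_sqrt']
      omega
  have h2 := Finset.card_le_card h1
  have h3 := Finset.card_union_le (W z) (Finset.Icc 1 (Nat.sqrt z))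
  rw [Nat.primesLE_card_eq_primeCounting] at h2
  simp only [Nat.card_Icc, Nat.add_sub_cancel] at h3
  omega

open Filter Asymptotics in
private lemma W_log : ∃ z0 : ℕ, ∀ z : ℕ, z0 ≤ z → (z : ℝ) / 4 ≤ (W z).card * Real.log z := by
  have h1 : ∀ᶠ x : ℝ in atTop, ‖Real.log x‖ ≤ (1 / 10) * ‖x ^ (1 / 2 : ℝ)‖ :=
    (isLittleO_log_rpow_atTop (by norm_num : (0 : ℝ) < 1 / 2)).def (by norm_num)
  rw [Filter.eventually_atTop] at h1
  obtain ⟨x0, hx0⟩ := h1
  refine ⟨max ⌈x0⌉₊ 100, fun z hz => ?_⟩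
  have hz1 : x0 ≤ z := (Nat.le_ceil x0).trans (by exact_mod_cast (le_max_left _ _).trans hz)
  have hz2 : (100 : ℝ) ≤ z := by exact_mod_cast (le_max_right _ _).trans hz
  have hzpos : (0 : ℝ) < z := by linarith
  have hlog : Real.log z ≤ (1 / 10) * Real.sqrt z := by
    have := hx0 z hz1
    rw [Real.norm_of_nonneg (Real.log_nonneg (by linarith)),
      Real.norm_of_nonneg (by positivity), ← Real.sqrt_eq_rpow] at this
    exact this
  have hsq : Real.sqrt z * Real.sqrt z = z := Real.mul_self_sqrt hzpos.le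
  have hs10 : 10 ≤ Real.sqrt z := by
    rw [show (10 : ℝ) = Real.sqrt 100 by
      rw [show (100 : ℝ) = 10 ^ 2 by norm_num, Real.sqrt_sq (by norm_num)]]
    exact Real.sqrt_le_sqrt hz2
  have hsqrt : ((Nat.sqrt z : ℕ) : ℝ) ≤ Real.sqrt z := Real.nat_sqrt_le_real_sqrt
  have h2 := Chebyshev.psi_ge z
  have h3 := Chebyshev.psi_le_primeCounting_mul_log z
  have h4 : ((Nat.primeCounting z : ℕ) : ℝ) ≤ (W z).card + Nat.sqrt z := by
    exact_mod_cast card_W_ge z
  have hlogpos : 0 ≤ Real.log z := Real.log_nonneg (by linarith)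
  have h5 : (Nat.primeCounting z : ℝ) * Real.log z ≤
      (W z).card * Real.log z + Real.sqrt z * Real.log z := by
    calc (Nat.primeCounting z : ℝ) * Real.log z ≤ ((W z).card + Nat.sqrt z) * Real.log z := by
          gcongr
      _ ≤ ((W z).card + Real.sqrt z) * Real.log z := by gcongr
      _ = _ := by ring
  have h6 : Real.sqrt z * Real.log z ≤ z / 10 := by
    calc Real.sqrt z * Real.log z ≤ Real.sqrt z * ((1 / 10) * Real.sqrt z) := by gcongr
      _ = (Real.sqrt z * Real.sqrt z) / 10 := by ring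
      _ = z / 10 := by rw [hsq]
  have h7 : Real.log (z + 1) ≤ z / 25 := by
    have : Real.log (z + 1) ≤ Real.log z + Real.log 2 := by
      rw [← Real.log_mul (by positivity) (by norm_num)]
      apply Real.log_le_log (by positivity)
      linarith
    have hl2 := Real.log_two_lt_d9
    have h8 : Real.log z ≤ z / 100 := by
      calc Real.log z ≤ (1 / 10) * Real.sqrt z := hlog
        _ ≤ (1 / 10) * (Real.sqrt z * (Real.sqrt z / 10)) := by
            have : Real.sqrt z ≤ Real.sqrt z * (Real.sqrt z / 10) := by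
              nlinarith
            linarith
        _ = (Real.sqrt z * Real.sqrt z) / 100 := by ring
        _ = z / 100 := by rw [hsq]
    linarith
  have hl2 := Real.log_two_gt_d9
  nlinarith

private lemma Az_card_ge : ∃ z0 : ℕ, 4 ≤ z0 ∧ ∀ z : ℕ, z0 ≤ z →
    (z : ℝ) ^ 5 ≤ 56 * (((Az z).card : ℝ) * Real.log z) := by
  obtain ⟨z0, hz0⟩ := W_log
  refine ⟨max z0 4, le_max_right _ _, fun z hz => ?_⟩
  have h1 := hz0 z ((le_max_left _ _).trans hz)
  have hz4 : 4 ≤ z := (le_max_right _ _).trans hz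
  have h2 : (z : ℝ) ^ 3 ≤ 2 * ((U z).card : ℝ) := by exact_mod_cast card_U_ge z
  have h3 : ((W z).card : ℝ) * (U z).card ≤ 7 * ((I z).card : ℝ) := by exact_mod_cast card_I z
  have h4 : ((Az z).card : ℝ) = z * (I z).card := by exact_mod_cast card_Az hz4
  have hlog : 0 ≤ Real.log z := Real.log_natCast_nonneg z
  have hz0' : (0 : ℝ) ≤ z := Nat.cast_nonneg z
  calc (z : ℝ) ^ 5 = z * (z * z ^ 3) := by ring
    _ ≤ z * ((4 * ((W z).card * Real.log z)) * (2 * ((U z).card : ℝ))) := by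
        gcongr
        linarith
    _ = 8 * (z * (((W z).card : ℝ) * (U z).card) * Real.log z) := by ring
    _ ≤ 8 * (z * (7 * ((I z).card : ℝ)) * Real.log z) := by gcongr
    _ = 56 * (((Az z).card : ℝ) * Real.log z) := by rw [h4]; ring

/-- There is a constant `C` such that for every `n ≥ 2` there is a set `A` of `n` integers all of
whose additive Sidon subsets and all of whose multiplicative Sidon subsets have at most
`C (n log n)^{3/5}` elements. -/
theorem result : ∃ C : ℝ, 0 < C ∧ ∀ n : ℕ, 2 ≤ n → ∃ A : Finset ℤ, A.card = n ∧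
    ∀ B ⊆ A, (AddSidon B ∨ MulSidon B) →
      (B.card : ℝ) ≤ C * ((n : ℝ) * Real.log n) ^ (3 / 5 : ℝ) := by
  obtain ⟨z0, hz04, hz0⟩ := Az_card_ge
  refine ⟨max (24 * (56 : ℝ) ^ (3 / 5 : ℝ)) (max 6 (z0 ^ 5)), by positivity, ?_⟩
  intro n hn
  have hnR : (2 : ℝ) ≤ n := by exact_mod_cast hn
  have hlog2 : Real.log 2 ≤ Real.log n := Real.log_le_log (by norm_num) hnR
  have hl2 := Real.log_two_gt_d9
  have hlogpos : 0 < Real.log n := by linarith
  have hnl : 1 ≤ (n : ℝ) * Real.log n := by nlinarith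
  have hpow1 : 1 ≤ ((n : ℝ) * Real.log n) ^ (3 / 5 : ℝ) := Real.one_le_rpow hnl (by norm_num)
  by_cases hsmall : (n : ℝ) ≤ max 6 ((z0 : ℝ) ^ 5)
  · -- small `n`: trivial
    refine ⟨(Finset.range n).map ⟨(fun i : ℕ => (i : ℤ)), Nat.cast_injective⟩, by simp, ?_⟩
    intro B hB _
    have h1 : B.card ≤ n := by
      have := Finset.card_le_card hB
      simpa using this
    have h2 : (B.card : ℝ) ≤ n := by exact_mod_cast h1
    calc (B.card : ℝ) ≤ n := h2
      _ ≤ max (24 * (56 : ℝ) ^ (3 / 5 : ℝ)) (max 6 (z0 ^ 5)) * 1 := by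
          rw [mul_one]; exact hsmall.trans (le_max_right _ _)
      _ ≤ _ := by gcongr
  · push Not at hsmall
    have hn6 : (6 : ℝ) < n := lt_of_le_of_lt (le_max_left _ _) hsmall
    have hnz : (z0 : ℝ) ^ 5 < n := lt_of_le_of_lt (le_max_right _ _) hsmall
    set t : ℝ := (56 * ((n : ℝ) * Real.log n)) ^ (1 / 5 : ℝ) with ht
    have ht5 : t ^ 5 = 56 * ((n : ℝ) * Real.log n) := by
      rw [ht, ← Real.rpow_natCast, ← Real.rpow_mul (by positivity)]
      norm_num
    have ht0 : 0 ≤ t := by positivity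
    have ht1 : 1 ≤ t := Real.one_le_rpow (by linarith) (by norm_num)
    set z : ℕ := ⌈t⌉₊ with hz
    have htz : t ≤ z := Nat.le_ceil t
    have hzt : (z : ℝ) < t + 1 := Nat.ceil_lt_add_one ht0
    have hz5 : 56 * ((n : ℝ) * Real.log n) ≤ (z : ℝ) ^ 5 := by
      rw [← ht5]; gcongr
    have hzz0 : z0 ≤ z := by
      have h1 : (z0 : ℝ) ^ 5 ≤ (z : ℝ) ^ 5 := by
        refine hnz.le.trans (le_trans ?_ hz5)
        nlinarith
      have h2 : (z0 : ℝ) ≤ z := le_of_pow_le_pow_left₀ (by norm_num) (Nat.cast_nonneg z) h1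
      exact_mod_cast h2
    have hzn : (z : ℝ) ≤ n := by
      have h1 : t ≤ n - 1 := by
        have h2 : t ^ 5 ≤ ((n : ℝ) - 1) ^ 5 := by
          rw [ht5]
          have h3 : Real.log n ≤ n := (Real.log_le_sub_one_of_pos (by linarith)).trans (by linarith)
          have h4 : (n : ℝ) * Real.log n ≤ n * n := by gcongr
          have hn6' : (7 : ℝ) ≤ n := by
            have : 6 < n := by exact_mod_cast hn6
            exact_mod_cast this
          obtain ⟨s, hs⟩ : ∃ s : ℝ, (n : ℝ) = s + 1 := ⟨n - 1, by ring⟩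
          rw [hs] at h4 hn6' ⊢
          have hs6 : 6 ≤ s := by linarith
          have h5 : 56 * ((s + 1) * (s + 1)) ≤ s ^ 5 := by
            have h6 : (s + 1) ≤ 7 / 6 * s := by linarith
            have h7 : (s + 1) * (s + 1) ≤ (7 / 6 * s) * (7 / 6 * s) := by
              apply mul_le_mul h6 h6 (by linarith) (by linarith)
            have h8 : (216 : ℝ) ≤ s ^ 3 := by
              calc (216 : ℝ) = 6 ^ 3 := by norm_num
                _ ≤ s ^ 3 := by gcongr
            have h9 : 216 * s ^ 2 ≤ s ^ 3 * s ^ 2 := by gcongr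
            nlinarith
          have : s + 1 - 1 = s := by ring
          rw [this]
          linarith
        exact le_of_pow_le_pow_left₀ (by norm_num) (by linarith) h2
      linarith
    have hzpos : (0 : ℝ) < z := by linarith
    have hlogz : Real.log z ≤ Real.log n := Real.log_le_log hzpos hzn
    have hcard := hz0 z hzz0
    have hAn : n ≤ (Az z).card := by
      have h1 : (n : ℝ) * Real.log n ≤ ((Az z).card : ℝ) * Real.log n := by
        have h2 : ((Az z).card : ℝ) * Real.log z ≤ ((Az z).card : ℝ) * Real.log n := by gcongr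
        linarith
      have h3 : (n : ℝ) ≤ ((Az z).card : ℝ) := le_of_mul_le_mul_right h1 hlogpos
      exact_mod_cast h3
    obtain ⟨A, hA, hAc⟩ := Finset.exists_subset_card_eq hAn
    refine ⟨A, hAc, ?_⟩
    intro B hB hS
    have hBc : B.card ≤ 3 * z ^ 3 := by
      rcases hS with h | h
      · exact add_bound (hz04.trans hzz0) (hB.trans hA) h
      · exact mul_bound (hB.trans hA) h
    have hBc' : (B.card : ℝ) ≤ 3 * (z : ℝ) ^ 3 := by exact_mod_cast hBc
    have hz2t : (z : ℝ) ≤ 2 * t := by linarith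
    have ht3 : t ^ 3 = (56 : ℝ) ^ (3 / 5 : ℝ) * ((n : ℝ) * Real.log n) ^ (3 / 5 : ℝ) := by
      rw [ht, ← Real.rpow_natCast, ← Real.rpow_mul (by positivity),
        ← Real.mul_rpow (by norm_num) (by positivity)]
      norm_num
    calc (B.card : ℝ) ≤ 3 * (z : ℝ) ^ 3 := hBc'
      _ ≤ 3 * (2 * t) ^ 3 := by gcongr
      _ = (24 * (56 : ℝ) ^ (3 / 5 : ℝ)) * ((n : ℝ) * Real.log n) ^ (3 / 5 : ℝ) := by
          rw [mul_pow, ht3]; ring
      _ ≤ _ := by gcongr; exact le_max_left _ _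

end Pool.Agent.Results.MP_c028f8_co.ThreeFifths
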